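import Pool.Agent.Helper76.Q5P3.StC

/-!
# Levels `5 * 3^n`, module DIMO: dimension of subOH (odd exponents)

Adapted from `Pool/Agent/Helper94/TK5/M_DIMOK.lean` and `Pool/Agent/Helper71/TH3/M_DIMOH3.lean`.
-/

set_option autoImplicit false

namespace Pool.Agent.Helper98.Q5P3

open Pool.Agent.Helper76.Q5P3
open Pool.Agent.Helper76.TH3 (Pt trp ng dR Iv Kl Dv Ty anti3 inv3 HDimK3 HSplit3)

section lin

variable {W W' : Type} [AddCommGroup W] [Module ℂ W] [FiniteDimensional ℂ W] [AddCommGroup W']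
  [Module ℂ W']

private theorem rn (f : W →ₗ[ℂ] W') (V : Submodule ℂ W) :
    Module.finrank ℂ (V.map f) + Module.finrank ℂ ↥(V ⊓ LinearMap.ker f) =
      Module.finrank ℂ V := by
  have h := LinearMap.finrank_range_add_finrank_ker (f.domRestrict V)
  rw [LinearMap.range_domRestrict, LinearMap.ker_domRestrict] at h
  have h2 : Module.finrank ℂ ↥((LinearMap.ker f).comap V.subtype) =
      Module.finrank ℂ ↥(V ⊓ LinearMap.ker f) := by
    rw [← Submodule.map_comap_subtype, Submodule.finrank_map_subtype_eq]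
  rw [h2] at h
  exact h

private theorem fr_prod {A B : Type} [AddCommGroup A] [Module ℂ A] [FiniteDimensional ℂ A]
    [AddCommGroup B] [Module ℂ B] [FiniteDimensional ℂ B] (V : Submodule ℂ A) (V' : Submodule ℂ B) :
    Module.finrank ℂ ↥(V.prod V') = Module.finrank ℂ V + Module.finrank ℂ V' := by
  have h1 : V.prod V' = LinearMap.range (V.subtype.prodMap V'.subtype) := by
    rw [LinearMap.range_prodMap, Submodule.range_subtype, Submodule.range_subtype]
  rw [h1, LinearMap.finrank_range_of_inj, Module.finrank_prod]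
  rintro ⟨a, b⟩ ⟨a', b'⟩ h
  simp only [LinearMap.prodMap_apply, Submodule.subtype_apply, Prod.mk.injEq,
    SetLike.coe_eq_coe] at h
  rw [h.1, h.2]

end lin

private theorem three_pow {m : ℕ} (hm : 1 ≤ m) : (3 : ZMod (3 ^ m)) * 3 ^ (m - 1) = 0 := by
  have h3 := ZMod.natCast_self (3 ^ m)
  push_cast at h3
  rw [← pow_succ', Nat.sub_add_cancel hm]
  exact h3

/-- a sum over the multiples of a unit modulo three of a function with period three -/
private theorem sum_unit (g : ℤ → ℂ) (hg : ∀ i, g (i + 3) = g i) (s : ℤ) (hs : ¬ (3 : ℤ) ∣ s) :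
    ∑ i ∈ Finset.range 3, g (s * i) = ∑ i ∈ Finset.range 3, g i := by
  have hg2 : ∀ (q : ℤ) (i : ℤ), g (i + 3 * q) = g i := by
    intro q
    induction q using Int.induction_on with
    | zero => intro i; simp
    | succ n ih =>
      intro i
      rw [show i + 3 * ((n : ℤ) + 1) = (i + 3 * n) + 3 by ring, hg, ih]
    | pred n ih =>
      intro i
      rw [← hg (i + 3 * (-(n : ℤ) - 1)), show i + 3 * (-(n : ℤ) - 1) + 3 = i + 3 * (-(n : ℤ)) by ring,
        ih]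
  obtain ⟨q, r, hr, hsr⟩ : ∃ q r : ℤ, (r = 1 ∨ r = 2) ∧ s = r + 3 * q :=
    ⟨s / 3, s % 3, by omega, by omega⟩
  have h1 : ∀ i : ℕ, g (s * i) = g (r * i) := by
    intro i
    rw [hsr, show (r + 3 * q) * (i : ℤ) = r * i + 3 * (q * i) by ring, hg2]
  simp only [h1]
  simp only [Finset.sum_range_succ, Finset.sum_range_zero]
  have q4 : g 4 = g 1 := by rw [show (4 : ℤ) = 1 + 3 * 1 by norm_num, hg2]
  rcases hr with rfl | rfl
  · norm_num
  · norm_num
    rw [q4]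
    ring

private theorem anti_s {m : ℕ} (hm : 1 ≤ m) {F : Pt m → ℂ} (hF : F ∈ anti3 m) (s : ℤ)
    (hs : ¬ (3 : ℤ) ∣ s) (x y : ZMod (3 ^ m)) :
    ∑ i ∈ Finset.range 3, F (x + s * (i * 3 ^ (m - 1)), y) = 0 ∧
      ∑ i ∈ Finset.range 3, F (x, y + s * (i * 3 ^ (m - 1))) = 0 := by
  have h := hF (x, y)
  have h5 := three_pow hm
  constructor
  · have k := sum_unit (fun i : ℤ => F (x + (i : ZMod (3 ^ m)) * 3 ^ (m - 1), y)) (by
      intro i
      have e : x + ((i + 3 : ℤ) : ZMod (3 ^ m)) * 3 ^ (m - 1) =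
          x + (i : ZMod (3 ^ m)) * 3 ^ (m - 1) := by
        push_cast
        linear_combination h5
      simp only [e]) s hs
    rw [← h.1]
    refine Eq.trans (Finset.sum_congr rfl fun i _ => ?_) (k.trans (Finset.sum_congr rfl fun i _ => ?_))
    · have e : x + (s : ZMod (3 ^ m)) * ((i : ZMod (3 ^ m)) * 3 ^ (m - 1)) =
          x + ((s * i : ℤ) : ZMod (3 ^ m)) * 3 ^ (m - 1) := by
        push_cast
        ring
      simp only [e]
    · simp only [Int.cast_natCast]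
  · have k := sum_unit (fun i : ℤ => F (x, y + (i : ZMod (3 ^ m)) * 3 ^ (m - 1))) (by
      intro i
      have e : y + ((i + 3 : ℤ) : ZMod (3 ^ m)) * 3 ^ (m - 1) =
          y + (i : ZMod (3 ^ m)) * 3 ^ (m - 1) := by
        push_cast
        linear_combination h5
      simp only [e]) s hs
    rw [← h.2]
    refine Eq.trans (Finset.sum_congr rfl fun i _ => ?_) (k.trans (Finset.sum_congr rfl fun i _ => ?_))
    · have e : y + (s : ZMod (3 ^ m)) * ((i : ZMod (3 ^ m)) * 3 ^ (m - 1)) =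
          y + ((s * i : ℤ) : ZMod (3 ^ m)) * 3 ^ (m - 1) := by
        push_cast
        ring
      simp only [e]
    · simp only [Int.cast_natCast]

private theorem dv_step {m : ℕ} (hm : 1 ≤ m) {s : ℤ} {φ : ZMod (3 ^ m) → ZMod (3 ^ m)}
    (h : Dv s φ) (x : ZMod (3 ^ m)) (i : ℕ) :
    φ (x + i * 3 ^ (m - 1)) = φ x + s * (i * 3 ^ (m - 1)) := by
  have h1 := h (m - 1) (x + i * 3 ^ (m - 1)) x ⟨i, by ring⟩
  have h2 : (3 : ZMod (3 ^ m)) ^ (m - 1 + 1) = 0 := by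
    rw [Nat.sub_add_cancel hm]
    have h3 := ZMod.natCast_self (3 ^ m)
    push_cast at h3
    exact h3
  rw [h2, zero_dvd_iff] at h1
  linear_combination h1

private theorem anti_comp {m n : ℕ} (hm : 1 ≤ m) {r : Pt m → Pt m} (hr : Ty n r) {F : Pt m → ℂ}
    (hF : F ∈ anti3 m) : (fun p => F (r p)) ∈ anti3 m := by
  rcases hr with ⟨_, s, s', φ, φ', hs, _, hs', _, hφ, hφ', hr⟩ | ⟨_, s, s', ψ, ψ', hs, hs', hψ, hψ', hr⟩
  · intro p
    simp only [hr, dv_step hm hφ, dv_step hm hφ']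
    exact ⟨(anti_s hm hF s hs (φ p.1) (φ' p.2)).1, (anti_s hm hF s' hs' (φ p.1) (φ' p.2)).2⟩
  · intro p
    simp only [hr, dv_step hm hψ, dv_step hm hψ']
    exact ⟨(anti_s hm hF s' hs' (ψ p.2) (ψ' p.1)).2, (anti_s hm hF s hs (ψ p.2) (ψ' p.1)).1⟩

private theorem dim_one {m n n' n'' : ℕ} (hk : HDimK3) (hm : 1 ≤ m) {r r' : Pt m → Pt m}
    (hkl : Kl r r') (hr : Ty n r) (hr' : Ty n' r') (hr'' : Ty n'' (fun p => r (r' p)))
    (hn : n + n' + n'' = 2) :
    Module.finrank ℂ (inv3 r r' (1 : ℂ) (1 : ℂ)) = 9 ^ (m - 1) + 3 ^ (m - 1) := by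
  have h2 := (hk m hm).2 r r' n n' n'' 1 1 hkl hr hr' hr'' (Or.inl rfl) (Or.inl rfl)
  rw [Int.cast_one] at h2
  have h3 : ((n : ℤ) + n' + n'') = 2 := by exact_mod_cast hn
  have h4 : (1 * (n : ℤ) + 1 * n' + 1 * 1 * n'') = 2 := by linarith
  rw [h4] at h2
  have h5 : (Module.finrank ℂ (inv3 r r' (1 : ℂ) (1 : ℂ)) : ℤ) =
      9 ^ (m - 1) + 3 ^ (m - 1) := by linarith
  exact_mod_cast h5

/-- The map `((f, l), e) ↦ e + e∘swH + l∘deH - f`. -/
private def Q (m : ℕ) : (((Pt m → ℂ) × (Pt m → ℂ)) × (Pt m → ℂ)) →ₗ[ℂ] (Pt m → ℂ) where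
  toFun F p := F.2 p + F.2 (swH p) + F.1.2 (deH p) - F.1.1 p
  map_add' F F' := by
    funext p; simp only [Prod.fst_add, Prod.snd_add, Pi.add_apply]; ring
  map_smul' c F := by
    funext p
    simp only [Prod.smul_fst, Prod.smul_snd, Pi.smul_apply, smul_eq_mul, RingHom.id_apply]; ring

private theorem Q_apply {m : ℕ} (F : ((Pt m → ℂ) × (Pt m → ℂ)) × (Pt m → ℂ)) (p : Pt m) :
    Q m F p = F.2 p + F.2 (swH p) + F.1.2 (deH p) - F.1.1 p := rfl

/-- **Module DIMO.** -/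
theorem hDimO : StHDimO := by
  intro ht h1 hk hs m hm
  obtain ⟨⟨a1, a2, a3, a4⟩, ⟨b1, b2, b3, b4⟩, ⟨c1, c2, c3⟩, -, -, -, -⟩ := ht m
  have d1 : Module.finrank ℂ (inv3 (ng : Pt m → Pt m) swH (1 : ℂ) (1 : ℂ)) =
      9 ^ (m - 1) + 3 ^ (m - 1) := dim_one hk hm a1 a2 a3 a4 (by norm_num)
  have d2 : Module.finrank ℂ (inv3 (dR 0 : Pt m → Pt m) cOH (1 : ℂ) (1 : ℂ)) =
      9 ^ (m - 1) + 3 ^ (m - 1) := dim_one hk hm b1 b2 b3 b4 (by norm_num)
  have d3 : Module.finrank ℂ (inv3 (deH : Pt m → Pt m) deH (-1 : ℂ) (-1 : ℂ)) =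
      2 * 9 ^ (m - 1) := by
    have h := h1 m hm deH 0 (-1) c1 c2 (Or.inr rfl)
    rw [Int.cast_neg, Int.cast_one] at h
    have h5 : (Module.finrank ℂ (inv3 (deH : Pt m → Pt m) deH (-1 : ℂ) (-1 : ℂ)) : ℤ) =
        2 * 9 ^ (m - 1) := by
      push_cast at h
      linarith
    exact_mod_cast h5
  have d4 : Module.finrank ℂ (inv3 (swH : Pt m → Pt m) swH (1 : ℂ) (1 : ℂ)) =
      2 * 9 ^ (m - 1) + 3 ^ (m - 1) := by
    have h := h1 m hm swH 1 1 a1.2.1 a3 (Or.inl rfl)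
    rw [Int.cast_one] at h
    have h5 : (Module.finrank ℂ (inv3 (swH : Pt m → Pt m) swH (1 : ℂ) (1 : ℂ)) : ℤ) =
        2 * 9 ^ (m - 1) + 3 ^ (m - 1) := by
      push_cast at h
      linarith
    exact_mod_cast h5
  have hmap : (((inv3 (ng : Pt m → Pt m) swH (1 : ℂ) (1 : ℂ)).prod
      (inv3 (dR 0 : Pt m → Pt m) cOH (1 : ℂ) (1 : ℂ))).prod
      (inv3 (deH : Pt m → Pt m) deH (-1 : ℂ) (-1 : ℂ))).map (Q m) =
      inv3 (swH : Pt m → Pt m) swH (1 : ℂ) (1 : ℂ) := by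
    apply le_antisymm
    · rintro _ ⟨⟨⟨f, l⟩, e⟩, ⟨⟨⟨hf, hf'⟩, ⟨hl, hl'⟩⟩, ⟨he, he'⟩⟩, rfl⟩
      dsimp only at hf hf' hl hl' he he'
      have f1 : ∀ p, f (swH p) = f p := fun p => by rw [(hf' p).2, one_mul]
      have l1 : ∀ p, l (cOH p) = l p := fun p => by rw [(hl' p).2, one_mul]
      have inv : ∀ p, Q m ((f, l), e) (swH p) = 1 * Q m ((f, l), e) p := by
        intro p
        rw [Q_apply, Q_apply]
        dsimp only
        rw [a1.2.1 p, f1 p, c3 p, l1 (deH p)]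
        ring
      refine ⟨?_, fun p => ⟨inv p, inv p⟩⟩
      have h4 : Q m ((f, l), e) = e + (fun p => e (swH p)) + (fun p => l (deH p)) - f := by
        funext p
        simp only [Q_apply, Pi.add_apply, Pi.sub_apply]
      rw [h4]
      exact Submodule.sub_mem _ (Submodule.add_mem _ (Submodule.add_mem _ he
        (anti_comp hm a3 he)) (anti_comp hm c2 hl)) hf
    · intro φ hφ
      obtain ⟨hφ0, hφ1⟩ := hφ
      obtain ⟨f, hf, l, hl, hfl, hfn, hld⟩ :=
        hs 0 m hm ((2 : ℂ)⁻¹ • φ) (Submodule.smul_mem _ _ hφ0)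
      have t1 := anti_comp hm a3 hf
      have t2 := anti_comp hm b3 hl
      have t3 := anti_comp hm c2 hl
      refine ⟨((-(f + fun p => f (swH p)), l + fun p => l (cOH p)), l - fun p => l (deH p)),
        ⟨⟨⟨?_, fun p => ⟨?_, ?_⟩⟩, ⟨?_, fun p => ⟨?_, ?_⟩⟩⟩, ⟨?_, fun p => ⟨?_, ?_⟩⟩⟩, ?_⟩
      · exact Submodule.neg_mem _ (Submodule.add_mem _ hf t1)
      · simp only [Pi.neg_apply, Pi.add_apply]
        rw [← a1.2.2 p, hfn p, hfn (swH p)]
        ring
      · simp only [Pi.neg_apply, Pi.add_apply]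
        rw [a1.2.1 p]
        ring
      · exact Submodule.add_mem _ hl t2
      · simp only [Pi.add_apply]
        rw [← b1.2.2 p, hld p, hld (cOH p)]
        ring
      · simp only [Pi.add_apply]
        rw [b1.2.1 p]
        ring
      · exact Submodule.sub_mem _ hl t3
      · simp only [Pi.sub_apply]
        rw [c1 p]
        ring
      · simp only [Pi.sub_apply]
        rw [c1 p]
        ring
      · funext p
        have x1 := hfl p
        have x2 := hfl (swH p)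
        simp only [Pi.smul_apply, smul_eq_mul] at x1 x2
        rw [(hφ1 p).1] at x2
        rw [Q_apply]
        simp only [Pi.neg_apply, Pi.add_apply, Pi.sub_apply]
        rw [c3 p]
        linear_combination -x1 - x2
  have hker : ((inv3 (ng : Pt m → Pt m) swH (1 : ℂ) (1 : ℂ)).prod
      (inv3 (dR 0 : Pt m → Pt m) cOH (1 : ℂ) (1 : ℂ))).prod
      (inv3 (deH : Pt m → Pt m) deH (-1 : ℂ) (-1 : ℂ)) ⊓ LinearMap.ker (Q m) = subOH m := by
    ext F
    constructor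
    · rintro ⟨⟨⟨h1, h2⟩, h3⟩, h5⟩
      rw [SetLike.mem_coe, LinearMap.mem_ker] at h5
      exact ⟨h1, h2, h3, fun p => congrFun h5 p⟩
    · rintro ⟨h1, h2, h3, h⟩
      refine ⟨⟨⟨h1, h2⟩, h3⟩, ?_⟩
      rw [SetLike.mem_coe, LinearMap.mem_ker]
      funext p
      exact h p
  have h6 := rn (Q m) (((inv3 (ng : Pt m → Pt m) swH (1 : ℂ) (1 : ℂ)).prod
      (inv3 (dR 0 : Pt m → Pt m) cOH (1 : ℂ) (1 : ℂ))).prod
      (inv3 (deH : Pt m → Pt m) deH (-1 : ℂ) (-1 : ℂ)))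
  rw [hmap, hker, fr_prod, fr_prod, d1, d2, d3, d4] at h6
  omega

end Pool.Agent.Helper98.Q5P3
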